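import Pool.Agent.H2.Han.Rea

set_option autoImplicit false
open Filter Topology
open scoped InnerProductSpace

namespace Pool.Han.RP

lemma avg_abs {ι : Type} [Fintype ι] [Nonempty ι] (a : ι → ℝ) (v e : ℝ) (h : ∀ c, |a c - v| ≤ e) :
    |(Fintype.card ι : ℝ)⁻¹ * ∑ c, a c - v| ≤ e := by
  have hN : (0 : ℝ) < Fintype.card ι := by exact_mod_cast Fintype.card_pos
  have e1 : (Fintype.card ι : ℝ)⁻¹ * ∑ c, a c - v = (Fintype.card ι : ℝ)⁻¹ * ∑ c, (a c - v) := by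
    rw [Finset.sum_sub_distrib, Finset.sum_const, Finset.card_univ, nsmul_eq_mul]
    field_simp
  rw [e1, abs_mul, abs_of_pos (inv_pos.2 hN)]
  calc (Fintype.card ι : ℝ)⁻¹ * |∑ c, (a c - v)| ≤ (Fintype.card ι : ℝ)⁻¹ * ∑ c : ι, e := by
        refine mul_le_mul_of_nonneg_left ?_ (inv_pos.2 hN).le
        exact (Finset.abs_sum_le_sum_abs _ _).trans (Finset.sum_le_sum fun c _ => h c)
    _ = e := by
        rw [Finset.sum_const, Finset.card_univ, nsmul_eq_mul]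
        field_simp

lemma inner_close {H : Type} [NormedAddCommGroup H] [InnerProductSpace ℝ H] {a a' a0 a0' : H}
    {B e : ℝ} (h : ‖a - a0‖ ≤ e) (h' : ‖a' - a0'‖ ≤ e) (hB : ‖a0‖ ≤ B) (hB' : ‖a0'‖ ≤ B)
    (he : 0 ≤ e) :
    |⟪a, a'⟫_ℝ - ⟪a0, a0'⟫_ℝ| ≤ e * (2 * B + e) := by
  have e1 : ⟪a, a'⟫_ℝ - ⟪a0, a0'⟫_ℝ = ⟪a - a0, a'⟫_ℝ + ⟪a0, a' - a0'⟫_ℝ := by
    rw [inner_sub_left, inner_sub_right]; ring
  have h1 : ‖a'‖ ≤ B + e := by
    calc ‖a'‖ = ‖a0' + (a' - a0')‖ := by congr 1; abel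
      _ ≤ ‖a0'‖ + ‖a' - a0'‖ := norm_add_le _ _
      _ ≤ B + e := add_le_add hB' h'
  have h2 : |⟪a - a0, a'⟫_ℝ| ≤ e * (B + e) :=
    (abs_real_inner_le_norm _ _).trans (mul_le_mul h h1 (norm_nonneg _) he)
  have h3 : |⟪a0, a' - a0'⟫_ℝ| ≤ B * e :=
    (abs_real_inner_le_norm _ _).trans (mul_le_mul hB h' (norm_nonneg _) ((norm_nonneg _).trans hB))
  rw [e1]
  calc _ ≤ |⟪a - a0, a'⟫_ℝ| + |⟪a0, a' - a0'⟫_ℝ| := abs_add_le _ _
    _ ≤ e * (B + e) + B * e := add_le_add h2 h3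
    _ = e * (2 * B + e) := by ring

theorem rlz_gen {Γ : Type} [Group Γ] (D : Subgroup Γ) [Fintype (Γ ⧸ D)] (δ : D →* Γ)
    (len : Γ → ℕ) (len_mul : ∀ g h, len (g * h) ≤ len g + len h)
    (len_inv : ∀ g, len g⁻¹ = len g) (hlen : ∀ d : D, len (d : Γ) ≤ len (δ d))
    {rho : ℕ → ℕ} {η : ℕ → ℝ} {U : Filter ℕ} (hη : ∀ m, 0 < η m) (hη0 : Tendsto η U (𝓝 0))
    {H : Type} [NormedAddCommGroup H] [InnerProductSpace ℝ H] {b : Γ → H}
    {H' : Type} [NormedAddCommGroup H'] [InnerProductSpace ℝ H'] {b' : Γ → H'}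
    (t : Γ → Γ ⧸ D → H) (ht : ∀ x x' c, ⟪t x c, t x' c⟫_ℝ = ⟪b' x, b' x'⟫_ℝ)
    (hf : ∀ (S : Finset Γ) (e : ℝ), 0 < e → ∃ f : Γ ⧸ D → (Γ →₀ ℝ), ∀ x ∈ S, ∀ c,
      ‖Finsupp.linearCombination ℝ b (W D δ f x c) - t x (x • c)‖ ≤ e)
    (hR : ∀ (S : Finset Γ) (ε : ℝ), 0 < ε → ∃ C : ℕ, ∀ᶠ m in U,
      ∃ (E : Type) (_ : NormedAddCommGroup E) (_ : InnerProductSpace ℝ E)
        (τ : Γ →* (E ≃ₗᵢ[ℝ] E)) (F : E),
        |‖F‖ ^ 2 - 1| ≤ ε ∧ (∀ g : Γ, rho m + C < len g → ⟪τ g F, F⟫_ℝ = 0) ∧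
        ∀ g ∈ S, ∀ h ∈ S, |⟪τ g F - F, τ h F - F⟫_ℝ - η m * ⟪b g, b h⟫_ℝ| ≤ ε * η m)
    (S : Finset Γ) (ε : ℝ) (hε : 0 < ε) : ∃ C : ℕ, ∀ᶠ m in U,
      ∃ (E : Type) (_ : NormedAddCommGroup E) (_ : InnerProductSpace ℝ E)
        (τ : Γ →* (E ≃ₗᵢ[ℝ] E)) (F : E),
        |‖F‖ ^ 2 - 1| ≤ ε ∧ (∀ g : Γ, rho m + C < len g → ⟪τ g F, F⟫_ℝ = 0) ∧
        ∀ g ∈ S, ∀ h ∈ S, |⟪τ g F - F, τ h F - F⟫_ℝ - η m * ⟪b' g, b' h⟫_ℝ| ≤ ε * η m := by
  classical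
  obtain ⟨B, hB0, hB⟩ : ∃ B : ℝ, 0 ≤ B ∧ ∀ x ∈ S, ‖b' x‖ ≤ B :=
    ⟨∑ x ∈ S, ‖b' x‖, Finset.sum_nonneg fun _ _ => norm_nonneg _, fun x hx =>
      Finset.single_le_sum (f := fun x => ‖b' x‖) (fun _ _ => norm_nonneg _) hx⟩
  obtain ⟨e1, he1, he1', he1''⟩ : ∃ e1 : ℝ, 0 < e1 ∧ e1 ≤ 1 ∧ e1 * (2 * B + e1) ≤ ε / 2 := by
    have h4 : (0 : ℝ) < 4 * (B + 1) := by positivity
    refine ⟨min 1 (ε / (4 * (B + 1))), lt_min one_pos (by positivity), min_le_left _ _, ?_⟩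
    have h1 := min_le_left 1 (ε / (4 * (B + 1)))
    have h2 := min_le_right 1 (ε / (4 * (B + 1)))
    have h3 : 0 ≤ min 1 (ε / (4 * (B + 1))) := le_min zero_le_one (by positivity)
    calc min 1 (ε / (4 * (B + 1))) * (2 * B + min 1 (ε / (4 * (B + 1))))
        ≤ (ε / (4 * (B + 1))) * (2 * B + 1) := by
          apply mul_le_mul h2 (by linarith) (by linarith) (by positivity)
      _ ≤ (ε / (4 * (B + 1))) * (2 * (B + 1)) := by
          apply mul_le_mul_of_nonneg_left (by linarith) (by positivity)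
      _ = ε / 2 := by field_simp; norm_num
  obtain ⟨f, hf⟩ := hf S e1 he1
  obtain ⟨K, hK1, hKW, hKf⟩ : ∃ K : ℝ, 1 ≤ K ∧ (∀ x ∈ S, ∀ c, l1 (W D δ f x c) ≤ K) ∧
      ∀ c, l1 (f c) ≤ K := by
    have n1 : 0 ≤ ∑ x ∈ S, ∑ c, l1 (W D δ f x c) :=
      Finset.sum_nonneg fun _ _ => Finset.sum_nonneg fun _ _ => l1_nonneg _
    have n2 : 0 ≤ ∑ c, l1 (f c) := Finset.sum_nonneg fun _ _ => l1_nonneg _
    refine ⟨1 + ∑ x ∈ S, ∑ c, l1 (W D δ f x c) + ∑ c, l1 (f c), by linarith, ?_, ?_⟩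
    · intro x hx c
      have a1 : l1 (W D δ f x c) ≤ ∑ c, l1 (W D δ f x c) :=
        Finset.single_le_sum (f := fun c => l1 (W D δ f x c)) (fun _ _ => l1_nonneg _)
          (Finset.mem_univ c)
      have a2 : ∑ c, l1 (W D δ f x c) ≤ ∑ x ∈ S, ∑ c, l1 (W D δ f x c) :=
        Finset.single_le_sum (f := fun x => ∑ c, l1 (W D δ f x c))
          (fun _ _ => Finset.sum_nonneg fun _ _ => l1_nonneg _) hx
      linarith
    · intro c
      have a1 : l1 (f c) ≤ ∑ c, l1 (f c) :=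
        Finset.single_le_sum (f := fun c => l1 (f c)) (fun _ _ => l1_nonneg _) (Finset.mem_univ c)
      linarith
  have hK0 : (0 : ℝ) < K := by linarith
  set S' : Finset Γ := (S.biUnion fun x => Finset.univ.biUnion fun c => (W D δ f x c).support) ∪
    (Finset.univ.biUnion fun c => (f c).support) with hS'
  have hSW : ∀ x ∈ S, ∀ c, (W D δ f x c).support ⊆ S' := by
    intro x hx c u hu
    rw [hS', Finset.mem_union]
    left
    rw [Finset.mem_biUnion]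
    exact ⟨x, hx, Finset.mem_biUnion.2 ⟨c, Finset.mem_univ _, hu⟩⟩
  have hSf : ∀ c, (f c).support ⊆ S' := by
    intro c u hu
    rw [hS', Finset.mem_union]
    right
    exact Finset.mem_biUnion.2 ⟨c, Finset.mem_univ _, hu⟩
  obtain ⟨K3, hK3, hK3'⟩ : ∃ K3 : ℝ, 0 < K3 ∧
      ∀ c, ‖Finsupp.linearCombination ℝ b (f c)‖ ^ 2 + K ^ 2 ≤ K3 := by
    refine ⟨∑ c, ‖Finsupp.linearCombination ℝ b (f c)‖ ^ 2 + K ^ 2, ?_, ?_⟩
    · have : 0 ≤ ∑ c, ‖Finsupp.linearCombination ℝ b (f c)‖ ^ 2 :=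
        Finset.sum_nonneg fun _ _ => sq_nonneg _
      positivity
    · intro c
      have := Finset.single_le_sum (f := fun c => ‖Finsupp.linearCombination ℝ b (f c)‖ ^ 2)
        (fun _ _ => sq_nonneg _) (Finset.mem_univ c)
      linarith
  obtain ⟨ε2, hε2, hε2a, hε2b, hε2c⟩ : ∃ ε2 : ℝ, 0 < ε2 ∧ ε2 ≤ 1 ∧ ε2 * K ^ 2 ≤ ε / 2 ∧
      ε2 ≤ ε / 2 := by
    have hK2 : (1 : ℝ) ≤ K ^ 2 := one_le_pow₀ hK1
    have h1 := min_le_left 1 (ε / (2 * K ^ 2))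
    have h2 := min_le_right 1 (ε / (2 * K ^ 2))
    refine ⟨min 1 (ε / (2 * K ^ 2)), lt_min one_pos (by positivity), h1, ?_, ?_⟩
    · calc min 1 (ε / (2 * K ^ 2)) * K ^ 2 ≤ ε / (2 * K ^ 2) * K ^ 2 :=
          mul_le_mul_of_nonneg_right h2 (by positivity)
        _ = ε / 2 := by field_simp
    · refine h2.trans ?_
      apply div_le_div_of_nonneg_left hε.le two_pos
      linarith
  obtain ⟨s, hs0, hs1, hs2⟩ : ∃ s : ℝ, 0 < s ∧ s ≤ 1 ∧ s ≤ ε / 10 :=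
    ⟨min 1 (ε / 10), lt_min one_pos (by positivity), min_le_left _ _, min_le_right _ _⟩
  obtain ⟨C, hC⟩ := hR S' ε2 hε2
  set T : Finset Γ := insert 1 S' with hT
  have hST : S' ⊆ T := Finset.subset_insert _ _
  refine ⟨C + (2 * T.sup len + 2 * Finset.univ.sup (fun c : Γ ⧸ D => len (Quotient.out c))), ?_⟩
  have hs3 : 0 < s ^ 2 / K3 := by positivity
  filter_upwards [hC, hη0.eventually_lt_const hs3] with m hm hηm
  obtain ⟨E, _, _, τ, F, h1, h2, h3⟩ := hm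
  refine ⟨PiLp 2 (fun _ : Γ ⧸ D => E), inferInstance, inferInstance, ind D δ τ, FF D τ F f, ?_, ?_, ?_⟩
  · rw [FF_norm]
    apply avg_abs
    intro c
    set z := Finsupp.linearCombination ℝ (fun g => τ g F - F) (f c) with hz
    have hz1 : ‖z‖ ^ 2 ≤ s ^ 2 := by
      have g1 := gram (fun g => τ g F - F) b h3 (hSf c) (hSf c)
      rw [← hz, real_inner_self_eq_norm_sq, real_inner_self_eq_norm_sq] at g1
      have g2 := (abs_le.1 g1).2
      have g3 : l1 (f c) * l1 (f c) ≤ K ^ 2 := by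
        rw [sq]; exact mul_le_mul (hKf c) (hKf c) (l1_nonneg _) hK0.le
      have g4 : ε2 * η m * (l1 (f c) * l1 (f c)) ≤ η m * K ^ 2 := by
        have : ε2 * η m ≤ η m := by nlinarith [hη m]
        exact mul_le_mul this g3 (mul_nonneg (l1_nonneg _) (l1_nonneg _)) (hη m).le
      have g5 : ‖z‖ ^ 2 ≤ η m * K3 := by
        have := mul_le_mul_of_nonneg_left (hK3' c) (hη m).le
        rw [mul_add] at this
        linarith
      refine g5.trans ?_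
      have := (lt_div_iff₀ hK3).1 hηm
      linarith
    have hz2 : ‖z‖ ≤ s := by
      exact (sq_le_sq₀ (norm_nonneg _) hs0.le).1 hz1
    have hF1 : ‖F‖ ≤ 3 / 2 := by
      have := (abs_le.1 h1).2
      nlinarith [norm_nonneg F]
    have e2 : ‖F + z‖ ^ 2 - 1 = (‖F‖ ^ 2 - 1) + (2 * ⟪F, z⟫_ℝ + ‖z‖ ^ 2) := by
      rw [norm_add_sq_real]; ring
    have e3 : |⟪F, z⟫_ℝ| ≤ 3 / 2 * s :=
      (abs_real_inner_le_norm _ _).trans (mul_le_mul hF1 hz2 (norm_nonneg _) (by norm_num))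
    rw [e2]
    have e4 := abs_le.1 e3
    have e5 := abs_le.1 h1
    have e6 : ‖z‖ ^ 2 ≤ s := by nlinarith
    have e7 : 0 ≤ ‖z‖ ^ 2 := sq_nonneg _
    rw [abs_le]
    constructor <;> linarith [e4.1, e4.2, e5.1, e5.2]
  · intro g hg
    refine FF_supp D δ τ F f len len_mul len_inv hlen h2 T (Finset.mem_insert_self _ _)
      (fun c => (hSf c).trans hST) (T.sup len)
      (Finset.univ.sup (fun c : Γ ⧸ D => len (Quotient.out c)))
      (fun u hu => Finset.le_sup (f := len) hu)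
      (fun c => Finset.le_sup (f := fun c : Γ ⧸ D => len (Quotient.out c)) (Finset.mem_univ c)) g ?_
    omega
  · intro x hx x' hx'
    rw [FF_inner]
    apply avg_abs
    intro c
    set w := W D δ f x (x⁻¹ • c) with hw
    set w' := W D δ f x' (x'⁻¹ • c) with hw'
    have g1 := gram (fun g => τ g F - F) b h3 (hSW x hx (x⁻¹ • c)) (hSW x' hx' (x'⁻¹ • c))
    rw [← hw, ← hw'] at g1
    have g2 : ε2 * η m * (l1 w * l1 w') ≤ ε / 2 * η m := by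
      have g3 : l1 w * l1 w' ≤ K ^ 2 := by
        rw [sq]
        exact mul_le_mul (hKW x hx _) (hKW x' hx' _) (l1_nonneg _) hK0.le
      calc ε2 * η m * (l1 w * l1 w') ≤ ε2 * η m * K ^ 2 :=
            mul_le_mul_of_nonneg_left g3 (by have := hη m; positivity)
        _ = (ε2 * K ^ 2) * η m := by ring
        _ ≤ ε / 2 * η m := mul_le_mul_of_nonneg_right hε2b (hη m).le
    have c1 := hf x hx (x⁻¹ • c)
    rw [smul_inv_smul, ← hw] at c1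
    have c2 := hf x' hx' (x'⁻¹ • c)
    rw [smul_inv_smul, ← hw'] at c2
    have n1 : ∀ x ∈ S, ‖t x c‖ ≤ B := by
      intro x hx
      have := ht x x c
      rw [real_inner_self_eq_norm_sq, real_inner_self_eq_norm_sq] at this
      rw [(sq_eq_sq₀ (norm_nonneg _) (norm_nonneg _)).1 this]
      exact hB x hx
    have g4 := inner_close c1 c2 (n1 x hx) (n1 x' hx') he1.le
    rw [ht] at g4
    have g5 : |η m * ⟪Finsupp.linearCombination ℝ b w, Finsupp.linearCombination ℝ b w'⟫_ℝ -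
        η m * ⟪b' x, b' x'⟫_ℝ| ≤ ε / 2 * η m := by
      rw [← mul_sub, abs_mul, abs_of_pos (hη m), mul_comm]
      exact mul_le_mul_of_nonneg_right (g4.trans he1'') (hη m).le
    have a1 := abs_le.1 (g1.trans g2)
    have a2 := abs_le.1 g5
    rw [abs_le]
    constructor <;> linarith [a1.1, a1.2, a2.1, a2.2]

end Pool.Han.RP
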