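import Mathlib

set_option autoImplicit false
open Filter Topology
open scoped InnerProductSpace

namespace Pool.Han.RP

section star

variable {Γ : Type} [Group Γ]

/-- action of a group element on formal combinations of cocycle values -/
noncomputable def st (g : Γ) (f : Γ →₀ ℝ) : Γ →₀ ℝ :=
  f.mapDomain (g * ·) - (f.sum fun _ r => r) • Finsupp.single g 1

lemma st_zero (g : Γ) : st g 0 = 0 := by simp [st]

lemma st_add (g : Γ) (f f' : Γ →₀ ℝ) : st g (f + f') = st g f + st g f' := by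
  unfold st
  rw [Finsupp.mapDomain_add, Finsupp.sum_add_index' (fun _ => rfl) (fun _ _ _ => rfl)]
  rw [add_smul]; abel

lemma st_single (g h : Γ) (r : ℝ) :
    st g (Finsupp.single h r) = Finsupp.single (g * h) r - r • Finsupp.single g 1 := by
  unfold st
  rw [Finsupp.mapDomain_single, Finsupp.sum_single_index rfl]

lemma lc_st {E : Type} [NormedAddCommGroup E] [InnerProductSpace ℝ E]
    (τ : Γ →* (E ≃ₗᵢ[ℝ] E)) (β : Γ → E) (hβ : ∀ g h, β (g * h) = β g + τ g (β h))
    (g : Γ) (f : Γ →₀ ℝ) :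
    Finsupp.linearCombination ℝ β (st g f) = τ g (Finsupp.linearCombination ℝ β f) := by
  induction f using Finsupp.induction_linear with
  | zero => simp [st_zero]
  | add f f' h h' => rw [st_add, map_add, map_add, map_add, h, h']
  | single h r =>
    rw [st_single, map_sub, map_smul, Finsupp.linearCombination_single,
      Finsupp.linearCombination_single, Finsupp.linearCombination_single, hβ, one_smul, map_smul,
      smul_add]
    abel

/-- sum of the absolute values of the coefficients -/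
noncomputable def l1 (f : Γ →₀ ℝ) : ℝ := f.sum fun _ r => |r|

lemma l1_nonneg (f : Γ →₀ ℝ) : 0 ≤ l1 f := Finset.sum_nonneg fun _ _ => abs_nonneg _

lemma gram {E E' : Type} [NormedAddCommGroup E] [InnerProductSpace ℝ E]
    [NormedAddCommGroup E'] [InnerProductSpace ℝ E'] (β : Γ → E) (b : Γ → E') {S : Finset Γ}
    {η ε : ℝ} (h : ∀ g ∈ S, ∀ h ∈ S, |⟪β g, β h⟫_ℝ - η * ⟪b g, b h⟫_ℝ| ≤ ε * η)
    {f f' : Γ →₀ ℝ} (hf : f.support ⊆ S) (hf' : f'.support ⊆ S) :
    |⟪Finsupp.linearCombination ℝ β f, Finsupp.linearCombination ℝ β f'⟫_ℝ -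
      η * ⟪Finsupp.linearCombination ℝ b f, Finsupp.linearCombination ℝ b f'⟫_ℝ| ≤
      ε * η * (l1 f * l1 f') := by
  have key : ∀ {E : Type} [NormedAddCommGroup E] [InnerProductSpace ℝ E] (β : Γ → E),
      ⟪Finsupp.linearCombination ℝ β f, Finsupp.linearCombination ℝ β f'⟫_ℝ =
      ∑ g ∈ f.support, ∑ h ∈ f'.support, f g * f' h * ⟪β g, β h⟫_ℝ := by
    intro E _ _ β
    rw [Finsupp.linearCombination_apply, Finsupp.linearCombination_apply, Finsupp.sum, Finsupp.sum,
      sum_inner]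
    refine Finset.sum_congr rfl fun g _ => ?_
    rw [inner_sum]
    refine Finset.sum_congr rfl fun h _ => ?_
    rw [real_inner_smul_left, real_inner_smul_right]; ring
  rw [key β, key b, Finset.mul_sum, ← Finset.sum_sub_distrib]
  have e1 : ∀ g ∈ f.support, |(∑ h ∈ f'.support, f g * f' h * ⟪β g, β h⟫_ℝ) -
      η * ∑ h ∈ f'.support, f g * f' h * ⟪b g, b h⟫_ℝ| ≤ ∑ h ∈ f'.support, |f g| * |f' h| * (ε * η) := by
    intro g hg
    rw [Finset.mul_sum, ← Finset.sum_sub_distrib]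
    refine (Finset.abs_sum_le_sum_abs _ _).trans (Finset.sum_le_sum fun h' hh => ?_)
    have : f g * f' h' * ⟪β g, β h'⟫_ℝ - η * (f g * f' h' * ⟪b g, b h'⟫_ℝ) =
      (f g * f' h') * (⟪β g, β h'⟫_ℝ - η * ⟪b g, b h'⟫_ℝ) := by ring
    rw [this, abs_mul, abs_mul]
    exact mul_le_mul_of_nonneg_left (h g (hf hg) h' (hf' hh)) (by positivity)
  refine (Finset.abs_sum_le_sum_abs _ _).trans ((Finset.sum_le_sum e1).trans (le_of_eq ?_))
  unfold l1 Finsupp.sum
  rw [Finset.sum_mul_sum, Finset.mul_sum]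
  refine Finset.sum_congr rfl fun g _ => ?_
  rw [Finset.mul_sum]
  refine Finset.sum_congr rfl fun h _ => ?_
  ring

end star

section ind

variable {Γ : Type} [Group Γ] (D : Subgroup Γ)

/-- the cocycle of the coset representatives -/
noncomputable def kk (x : Γ) (c : Γ ⧸ D) : D :=
  ⟨(Quotient.out (x • c))⁻¹ * (x * Quotient.out c), by
    rw [← QuotientGroup.eq, QuotientGroup.out_eq']
    conv_lhs => rw [← QuotientGroup.out_eq' c]
    rfl⟩

lemma kk_spec (x : Γ) (c : Γ ⧸ D) :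
    x * Quotient.out c = Quotient.out (x • c) * (kk D x c : Γ) := by
  simp [kk]

lemma kk_one (c : Γ ⧸ D) : kk D 1 c = 1 := by
  apply Subtype.ext
  simp [kk]

lemma kk_mul (x x' : Γ) (c : Γ ⧸ D) : kk D (x * x') c = kk D x (x' • c) * kk D x' c := by
  apply Subtype.ext
  simp only [kk, Subgroup.coe_mul, mul_smul]
  group

variable {E : Type} [NormedAddCommGroup E] [InnerProductSpace ℝ E] (δ : D →* Γ)
  (τ : Γ →* (E ≃ₗᵢ[ℝ] E)) [Fintype (Γ ⧸ D)]

/-- the operator of the induced representation -/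
noncomputable def io (x : Γ) :
    PiLp 2 (fun _ : Γ ⧸ D => E) ≃ₗᵢ[ℝ] PiLp 2 (fun _ : Γ ⧸ D => E) :=
  (LinearIsometryEquiv.piLpCongrRight 2 (fun c => τ (δ (kk D x c)))).trans
    (LinearIsometryEquiv.piLpCongrLeft 2 ℝ E (MulAction.toPerm x))

lemma io_apply (x : Γ) (v : PiLp 2 (fun _ : Γ ⧸ D => E)) (c : Γ ⧸ D) :
    io D δ τ x v (x • c) = τ (δ (kk D x c)) (v c) := by
  unfold io
  rw [LinearIsometryEquiv.trans_apply, LinearIsometryEquiv.piLpCongrLeft_apply]
  simp [Equiv.piCongrLeft']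

lemma io_apply' (x : Γ) (v : PiLp 2 (fun _ : Γ ⧸ D => E)) (c : Γ ⧸ D) :
    io D δ τ x v c = τ (δ (kk D x (x⁻¹ • c))) (v (x⁻¹ • c)) := by
  have := io_apply D δ τ x v (x⁻¹ • c)
  rwa [smul_inv_smul] at this

/-- the induced representation -/
noncomputable def ind : Γ →* (PiLp 2 (fun _ : Γ ⧸ D => E) ≃ₗᵢ[ℝ] PiLp 2 (fun _ : Γ ⧸ D => E)) where
  toFun := io D δ τ
  map_one' := by
    ext v c
    rw [io_apply', inv_one, one_smul, kk_one, map_one, map_one]
    rfl
  map_mul' x x' := by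
    ext v c
    have h1 : c = (x * x') • ((x * x')⁻¹ • c) := by rw [smul_inv_smul]
    show io D δ τ (x * x') v c = io D δ τ x (io D δ τ x' v) c
    rw [h1, io_apply, kk_mul, map_mul, map_mul]
    generalize (x * x')⁻¹ • c = c'
    rw [mul_smul, io_apply, io_apply]
    rfl

lemma ind_apply (x : Γ) (v : PiLp 2 (fun _ : Γ ⧸ D => E)) (c : Γ ⧸ D) :
    ind D δ τ x v (x • c) = τ (δ (kk D x c)) (v c) := io_apply D δ τ x v c

end ind

end Pool.Han.RP
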