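import Pool.Agent.H2.Han.Ind

set_option autoImplicit false
open Filter Topology
open scoped InnerProductSpace

namespace Pool.Han.RP

section

variable {Γ : Type} [Group Γ] (D : Subgroup Γ) (δ : D →* Γ)

/-- formal expression of a coordinate of the cocycle of the induced vector -/
noncomputable def W (f : Γ ⧸ D → (Γ →₀ ℝ)) (x : Γ) (c : Γ ⧸ D) : Γ →₀ ℝ :=
  Finsupp.single (δ (kk D x c)) 1 + st (δ (kk D x c)) (f c) - f (x • c)

lemma mapp {E : Type} [NormedAddCommGroup E] [InnerProductSpace ℝ E]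
    (τ : Γ →* (E ≃ₗᵢ[ℝ] E)) (g h : Γ) (v : E) : τ (g * h) v = τ g (τ h v) := by
  rw [map_mul]; rfl

lemma cob {E : Type} [NormedAddCommGroup E] [InnerProductSpace ℝ E]
    (τ : Γ →* (E ≃ₗᵢ[ℝ] E)) (F : E) (g h : Γ) :
    τ (g * h) F - F = (τ g F - F) + τ g (τ h F - F) := by
  rw [mapp, map_sub]; abel

lemma W_lc {E : Type} [NormedAddCommGroup E] [InnerProductSpace ℝ E]
    (τ : Γ →* (E ≃ₗᵢ[ℝ] E)) (F : E) (f : Γ ⧸ D → (Γ →₀ ℝ)) (x : Γ) (c : Γ ⧸ D) :
    τ (δ (kk D x c)) (F + Finsupp.linearCombination ℝ (fun g => τ g F - F) (f c)) -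
      (F + Finsupp.linearCombination ℝ (fun g => τ g F - F) (f (x • c))) =
    Finsupp.linearCombination ℝ (fun g => τ g F - F) (W D δ f x c) := by
  have h1 := lc_st τ (fun g => τ g F - F) (fun g h => cob τ F g h) (δ (kk D x c)) (f c)
  unfold W
  rw [map_sub (Finsupp.linearCombination ℝ (fun g => τ g F - F)),
    map_add (Finsupp.linearCombination ℝ (fun g => τ g F - F)), Finsupp.linearCombination_single,
    one_smul, h1, map_add]
  abel

/-- vanishing of matrix coefficients on the span of finitely many translates -/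
lemma span_zero {E : Type} [NormedAddCommGroup E] [InnerProductSpace ℝ E]
    (τ : Γ →* (E ≃ₗᵢ[ℝ] E)) (F : E) (T : Finset Γ) (g : Γ)
    (h : ∀ u ∈ T, ∀ u' ∈ T, ⟪τ g (τ u F), τ u' F⟫_ℝ = 0) {v w : E}
    (hv : v ∈ Submodule.span ℝ ((fun u => τ u F) '' (T : Set Γ)))
    (hw : w ∈ Submodule.span ℝ ((fun u => τ u F) '' (T : Set Γ))) :
    ⟪τ g v, w⟫_ℝ = 0 := by
  induction hv using Submodule.span_induction with
  | zero => simp
  | add v v' _ _ h1 h2 => rw [map_add, inner_add_left, h1, h2, add_zero]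
  | smul r v _ h1 => rw [map_smul, real_inner_smul_left, h1, mul_zero]
  | mem v hv =>
    obtain ⟨u, hu, rfl⟩ := hv
    induction hw using Submodule.span_induction with
    | zero => simp
    | add v v' _ _ h1 h2 => rw [inner_add_right, h1, h2, add_zero]
    | smul r v _ h1 => rw [real_inner_smul_right, h1, mul_zero]
    | mem v hv =>
      obtain ⟨u', hu', rfl⟩ := hv
      exact h u hu u' hu'

lemma lc_mem_span {E : Type} [NormedAddCommGroup E] [InnerProductSpace ℝ E]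
    (τ : Γ →* (E ≃ₗᵢ[ℝ] E)) (F : E) (T : Finset Γ) (h1 : (1 : Γ) ∈ T) (f : Γ →₀ ℝ)
    (hf : f.support ⊆ T) :
    F + Finsupp.linearCombination ℝ (fun g => τ g F - F) f ∈
      Submodule.span ℝ ((fun u => τ u F) '' (T : Set Γ)) := by
  have hF : F ∈ Submodule.span ℝ ((fun u => τ u F) '' (T : Set Γ)) := by
    refine Submodule.subset_span ⟨1, h1, ?_⟩
    simp
  refine Submodule.add_mem _ hF ?_
  rw [Finsupp.linearCombination_apply]
  refine Submodule.sum_mem _ fun g hg => Submodule.smul_mem _ _ (Submodule.sub_mem _ ?_ hF)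
  exact Submodule.subset_span ⟨g, hf hg, rfl⟩

variable [Fintype (Γ ⧸ D)] {E : Type} [NormedAddCommGroup E] [InnerProductSpace ℝ E]
    (τ : Γ →* (E ≃ₗᵢ[ℝ] E)) (F : E) (f : Γ ⧸ D → (Γ →₀ ℝ))

/-- the induced vector -/
noncomputable def FF : PiLp 2 (fun _ : Γ ⧸ D => E) :=
  WithLp.toLp 2 fun c => (Real.sqrt (Fintype.card (Γ ⧸ D)))⁻¹ •
    (F + Finsupp.linearCombination ℝ (fun g => τ g F - F) (f c))

lemma FF_apply (c : Γ ⧸ D) : FF D τ F f c = (Real.sqrt (Fintype.card (Γ ⧸ D)))⁻¹ •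
    (F + Finsupp.linearCombination ℝ (fun g => τ g F - F) (f c)) := rfl

lemma FF_sub (x : Γ) (c : Γ ⧸ D) :
    (ind D δ τ x (FF D τ F f) - FF D τ F f) (x • c) = (Real.sqrt (Fintype.card (Γ ⧸ D)))⁻¹ •
      Finsupp.linearCombination ℝ (fun g => τ g F - F) (W D δ f x c) := by
  rw [PiLp.sub_apply, ind_apply, FF_apply, FF_apply, map_smul, ← smul_sub, W_lc]

lemma FF_inner (x x' : Γ) :
    ⟪ind D δ τ x (FF D τ F f) - FF D τ F f, ind D δ τ x' (FF D τ F f) - FF D τ F f⟫_ℝ =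
      (Fintype.card (Γ ⧸ D) : ℝ)⁻¹ * ∑ c : Γ ⧸ D,
        ⟪Finsupp.linearCombination ℝ (fun g => τ g F - F) (W D δ f x (x⁻¹ • c)),
          Finsupp.linearCombination ℝ (fun g => τ g F - F) (W D δ f x' (x'⁻¹ • c))⟫_ℝ := by
  rw [PiLp.inner_apply, Finset.mul_sum]
  refine Finset.sum_congr rfl fun c _ => ?_
  have e1 : ∀ x : Γ, (ind D δ τ x (FF D τ F f) - FF D τ F f) c =
      (Real.sqrt (Fintype.card (Γ ⧸ D)))⁻¹ •
      Finsupp.linearCombination ℝ (fun g => τ g F - F) (W D δ f x (x⁻¹ • c)) := by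
    intro x
    have := FF_sub D δ τ F f x (x⁻¹ • c)
    rwa [smul_inv_smul] at this
  rw [e1, e1, real_inner_smul_left, real_inner_smul_right, ← mul_assoc]
  congr 1
  rw [← mul_inv, Real.mul_self_sqrt (Nat.cast_nonneg _)]

lemma FF_norm : ‖FF D τ F f‖ ^ 2 = (Fintype.card (Γ ⧸ D) : ℝ)⁻¹ * ∑ c : Γ ⧸ D,
    ‖F + Finsupp.linearCombination ℝ (fun g => τ g F - F) (f c)‖ ^ 2 := by
  rw [PiLp.norm_sq_eq_of_L2, Finset.mul_sum]
  refine Finset.sum_congr rfl fun c _ => ?_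
  rw [FF_apply, norm_smul, mul_pow]
  congr 1
  rw [norm_inv, inv_pow, Real.norm_of_nonneg (Real.sqrt_nonneg _), Real.sq_sqrt (Nat.cast_nonneg _)]

lemma FF_supp (len : Γ → ℕ) (len_mul : ∀ g h, len (g * h) ≤ len g + len h)
    (len_inv : ∀ g, len g⁻¹ = len g) (hlen : ∀ d : D, len (d : Γ) ≤ len (δ d))
    {ρ : ℕ} (hF : ∀ g : Γ, ρ < len g → ⟪τ g F, F⟫_ℝ = 0) (T : Finset Γ) (h1 : (1 : Γ) ∈ T)
    (hT : ∀ c, (f c).support ⊆ T) (R R' : ℕ) (hR : ∀ u ∈ T, len u ≤ R)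
    (hR' : ∀ c : Γ ⧸ D, len (Quotient.out c) ≤ R') (x : Γ)
    (hx : ρ + (2 * R + 2 * R') < len x) :
    ⟪ind D δ τ x (FF D τ F f), FF D τ F f⟫_ℝ = 0 := by
  rw [PiLp.inner_apply]
  refine Finset.sum_eq_zero fun c _ => ?_
  obtain ⟨c, rfl⟩ : ∃ c', c = x • c' := ⟨x⁻¹ • c, by rw [smul_inv_smul]⟩
  rw [ind_apply, FF_apply, FF_apply, map_smul, real_inner_smul_left, real_inner_smul_right]
  rw [span_zero τ F T (δ (kk D x c)) ?_ (lc_mem_span τ F T h1 _ (hT _))
    (lc_mem_span τ F T h1 _ (hT _)), mul_zero, mul_zero]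
  intro u hu u' hu'
  have e1 : ⟪τ (δ (kk D x c)) (τ u F), τ u' F⟫_ℝ = ⟪τ (u'⁻¹ * δ (kk D x c) * u) F, F⟫_ℝ := by
    have : τ u' (τ (u'⁻¹ * δ (kk D x c) * u) F) = τ (δ (kk D x c)) (τ u F) := by
      rw [← mapp, ← mapp]
      congr 2
      group
    rw [← this, LinearIsometryEquiv.inner_map_map]
  rw [e1]
  apply hF
  have l1 : len x ≤ 2 * R' + len (δ (kk D x c)) := by
    have e2 : x = Quotient.out (x • c) * (kk D x c : Γ) * (Quotient.out c)⁻¹ := by
      rw [← kk_spec]; group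
    calc len x = len (Quotient.out (x • c) * (kk D x c : Γ) * (Quotient.out c)⁻¹) := by rw [← e2]
      _ ≤ len (Quotient.out (x • c)) + len (kk D x c : Γ) + len (Quotient.out c)⁻¹ :=
        (len_mul _ _).trans (Nat.add_le_add_right (len_mul _ _) _)
      _ ≤ 2 * R' + len (δ (kk D x c)) := by
        rw [len_inv]
        have := hR' c; have := hR' (x • c); have := hlen (kk D x c)
        omega
  have l2 : len (δ (kk D x c)) ≤ 2 * R + len (u'⁻¹ * δ (kk D x c) * u) := by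
    have e2 : δ (kk D x c) = u' * (u'⁻¹ * δ (kk D x c) * u) * u⁻¹ := by group
    calc len (δ (kk D x c)) = len (u' * (u'⁻¹ * δ (kk D x c) * u) * u⁻¹) := by rw [← e2]
      _ ≤ len u' + len (u'⁻¹ * δ (kk D x c) * u) + len u⁻¹ :=
        (len_mul _ _).trans (Nat.add_le_add_right (len_mul _ _) _)
      _ ≤ 2 * R + len (u'⁻¹ * δ (kk D x c) * u) := by
        rw [len_inv]
        have := hR u hu; have := hR u' hu'
        omega
  omega

end

end Pool.Han.RP
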